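import Mathlib
import Pool.Agent.TH504.VY.Defs

set_option autoImplicit false

/-!
# Linear categories and abelian schemes: definitions (helper96)

`Γ` is the fundamental group of the base `S` and `B` its universal covering. The rational homology
of the fibres of an abelian scheme `A` is trivialized over `B`: it is the rational space `W` with an
inclusion in the tangent space of `A_b` for every `b`. The rational cohomology `ℚ ^ v` of the fibres of
a smooth proper family `Y` is trivialized too; the Hodge structure of `Y_b` is given by its Hodge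
operator (multiplication by `p - q` on `H ^ (p, q)`). The cohomology of `A_b × Y_b` is `HAZ W v`.
-/

namespace Pool.Agent.K3h96.MV

open Matrix Module Pool.Agent.H204R3.CM Pool.Agent.H194R3.CM Pool.Agent.W437.HD
  Pool.Agent.W437.HP Pool.Agent.TH131.GHC Pool.Agent.TH504.VY

noncomputable section

/-- The monodromy: the action of the fundamental group `Γ` of `S` on the homology `W` of the fibres
of `A` (it preserves the orientation) and on the cohomology `ℚ ^ v` of the fibres of `Y`. -/
structure Monodromy (Γ W : Type) [Group Γ] [AddCommGroup W] [Module ℚ W] (v : ℕ) where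
  /-- the action on the homology of `A` -/
  onA : Representation ℚ Γ W
  /-- the action on the cohomology of `Y` -/
  onY : Representation ℚ Γ (Fin v → ℚ)
  det_one : ∀ γ, LinearMap.det (onA γ) = 1

section mono

variable {Γ W : Type} [Group Γ] [AddCommGroup W] [Module ℚ W] {v : ℕ}

/-- The transport of homology classes of `A`. -/
def Monodromy.moveA (ρ : Monodromy Γ W v) (γ : Γ) {k : ℕ} (w : Fin k → W) : Fin k → W :=
  fun l => ρ.onA γ (w l)

/-- The transport of a cohomology class of `Y`. -/
def Monodromy.moveY (ρ : Monodromy Γ W v) (γ : Γ) (x : Fin v → ℚ) : Fin v → ℚ := ρ.onY γ x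

/-- The flat class `x` on `Y` is a global section over the covering of `S` given by `H`. -/
def Monodromy.SectionY (ρ : Monodromy Γ W v) (H : Subgroup Γ) (x : Fin v → ℚ) : Prop :=
  ∀ γ ∈ H, ρ.moveY γ x = x

/-- The flat class `F` on `A ×_S Y` is a global section over the covering of `S` given by `H`. -/
def Monodromy.Section (ρ : Monodromy Γ W v) (H : Subgroup Γ) (F : HAZ W v) : Prop :=
  ∀ γ ∈ H, ∀ (k : ℕ) (w : Fin k → W), F k (ρ.moveA γ w) = ρ.moveY γ (F k w)

end mono

section cat

variable {B W T : Type} [AddCommGroup W] [Module ℚ W] [AddCommGroup T] [Module ℂ T] {v : ℕ}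

/-- The operator `1 ⊗ P` on the cohomology of `A × Y`. -/
def box (P : Matrix (Fin v) (Fin v) ℚ) (F : HAZ W v) : HAZ W v :=
  fun k => (Matrix.mulVecLin P).compAlternatingMap (F k)

/-- The class `x` on `Y_b` is algebraic. -/
def IsAlgY {per : B → W →+ T} (C : CycleSystem per v) (b : B) (x : Fin v → ℚ) : Prop :=
  x ∈ C.algY b

/-- The class `F` on `A_b × Y_b` is algebraic. -/
def IsAlg {per : B → W →+ T} (C : CycleSystem per v) (b : B) (F : HAZ W v) : Prop :=
  F ∈ C.alg b

/-- `P` commutes with the Hodge operator. -/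
def CommutesHodge (V : Coh v) (P : Matrix (Fin v) (Fin v) ℚ) : Prop :=
  V.z * P.map (algebraMap ℚ ℂ) = P.map (algebraMap ℚ ℂ) * V.z

/-- An `S`-linear admissible subcategory `𝒟` of `D_perf(Y)` for a family `Y` over `S`: the flat
idempotent operator `P` on the cohomology of the fibres of `Y` which is induced by the projection
functor. It commutes with the Hodge operators, and since the projection functor has a kernel
in `D_perf(Y ×_S Y)`, the operators `P` and `1 ⊗ P` preserve the algebraic classes of `Y_b` and of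
`A_b × Y_b`. -/
structure LinearCat {per : B → W →+ T} (C : CycleSystem per v) (Y : B → Coh v) where
  /-- the projector -/
  P : Matrix (Fin v) (Fin v) ℚ
  idem : P * P = P
  hodge : ∀ b, CommutesHodge (Y b) P
  cycles : ∀ b x, IsAlgY C b x → IsAlgY C b (P *ᵥ x)
  cyclesA : ∀ b F, IsAlg C b F → IsAlg C b (box P F)

variable {per : B → W →+ T} {C : CycleSystem per v} {Y : B → Coh v}

/-- `x` is an element of `K^top(𝒟_b) ⊗ ℚ`. -/
def LinearCat.KTop (D : LinearCat C Y) (x : Fin v → ℚ) : Prop := D.P *ᵥ x = x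

/-- The algebraic classes of `𝒟_b`: the image of the algebraic classes of `Y_b` under the projection
functor. -/
def LinearCat.Alg (D : LinearCat C Y) (b : B) (x : Fin v → ℚ) : Prop :=
  ∃ y, IsAlgY C b y ∧ x = D.P *ᵥ y

/-- `F` is an element of `K^top(D_perf(A_b) ⊠ 𝒟_b) ⊗ ℚ`. -/
def LinearCat.KTopA (D : LinearCat C Y) (F : HAZ W v) : Prop := box D.P F = F

/-- The algebraic classes of `D_perf(A_b) ⊠ 𝒟_b`. -/
def LinearCat.AlgA (D : LinearCat C Y) (b : B) (F : HAZ W v) : Prop :=
  ∃ G, IsAlg C b G ∧ F = box D.P G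

/-- The flat class `x` on `Y` is a Hodge class on all fibres. -/
def HodgeEverywhere (Y : B → Coh v) (x : Fin v → ℚ) : Prop := ∀ b, IsHodgeOn (Y b) x

/-- The flat class `F` on `A ×_S Y` is a Hodge class on all fibres. -/
def HodgeEverywhereA (per : B → W →+ T) (Y : B → Coh v) (F : HAZ W v) : Prop :=
  ∀ b, IsHodgeOnProduct (per b) (Y b) F

/-- **Q1 for `𝒟`** over the covering of `S` given by `H`. -/
def LinearCat.QOne {Γ : Type} [Group Γ] (D : LinearCat C Y) (ρ : Monodromy Γ W v)
    (H : Subgroup Γ) : Prop :=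
  ∀ x, D.KTop x → ρ.SectionY H x → HodgeEverywhere Y x → ∀ b₀, D.Alg b₀ x → ∀ b, D.Alg b x

/-- **Q1 for `D_perf(A) ⊠ 𝒟`** over the covering of `S` given by `H`. -/
def LinearCat.QOneA {Γ : Type} [Group Γ] (D : LinearCat C Y) (ρ : Monodromy Γ W v)
    (H : Subgroup Γ) : Prop :=
  ∀ F, D.KTopA F → ρ.Section H F → HodgeEverywhereA per Y F →
    ∀ b₀, D.AlgA b₀ F → ∀ b, D.AlgA b F

/-- The linear operators on the cohomology of `A_b × Y_b`. -/
def Op (W : Type) [AddCommGroup W] [Module ℚ W] (v : ℕ) : Type := HAZ W v →ₗ[ℚ] HAZ W v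

/-- The value of an operator. -/
def Op.ap {W : Type} [AddCommGroup W] [Module ℚ W] {v : ℕ} (Q : Op W v) (F : HAZ W v) :
    HAZ W v := (show HAZ W v →ₗ[ℚ] HAZ W v from Q) F

/-- An `S`-linear admissible subcategory `ℰ` of `D_perf(A) ⊠ 𝒟`: the flat idempotent operator on the
cohomology of the fibres of `A ×_S Y` which is induced by the projection functor. It preserves
the algebraic classes, and its image is contained in `K^top(D_perf(A_b) ⊠ 𝒟_b) ⊗ ℚ`. -/
structure LinearCat.Sub (D : LinearCat C Y) where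
  /-- the projector -/
  Q : Op W v
  idem : ∀ F, Q.ap (Q.ap F) = Q.ap F
  cycles : ∀ b F, IsAlg C b F → IsAlg C b (Q.ap F)
  le : ∀ F, D.KTopA (Q.ap F)

/-- The algebraic classes of `ℰ_b`. -/
def LinearCat.Sub.Alg {D : LinearCat C Y} (E : D.Sub) (b : B) (F : HAZ W v) : Prop :=
  ∃ G, IsAlg C b G ∧ F = E.Q.ap G

/-- **Q1 for the subcategory `ℰ`** over the covering of `S` given by `H`. -/
def LinearCat.Sub.QOne {Γ : Type} [Group Γ] {D : LinearCat C Y} (E : D.Sub)
    (ρ : Monodromy Γ W v) (H : Subgroup Γ) : Prop :=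
  ∀ F, E.Q.ap F = F → ρ.Section H F → HodgeEverywhereA per Y F →
    ∀ b₀, E.Alg b₀ F → ∀ b, E.Alg b F

/-- Q1 for `𝒟` over all finite etale coverings of `S` (in particular over `S`). -/
def LinearCat.QOneCoverings {Γ : Type} [Group Γ] (D : LinearCat C Y) (ρ : Monodromy Γ W v) : Prop :=
  ∀ H : Subgroup Γ, H.FiniteIndex → D.QOne ρ H

/-- Q1 for `D_perf(A) ⊠ 𝒟` over all finite etale coverings of `S`. -/
def LinearCat.QOneACoverings {Γ : Type} [Group Γ] (D : LinearCat C Y) (ρ : Monodromy Γ W v) :
    Prop :=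
  ∀ H : Subgroup Γ, H.FiniteIndex → D.QOneA ρ H

/-- Q1 for the subcategory `ℰ` of `D_perf(A) ⊠ 𝒟` over all finite etale coverings of `S`. -/
def LinearCat.Sub.QOneCoverings {Γ : Type} [Group Γ] {D : LinearCat C Y} (E : D.Sub)
    (ρ : Monodromy Γ W v) : Prop :=
  ∀ H : Subgroup Γ, H.FiniteIndex → E.QOne ρ H

/-- The flat classes on `A` which are combinations of products of divisor classes on all fibres are
defined over the covering of `S` given by `H`. -/
def DefinedOver {Γ : Type} [Group Γ] (per : B → W →+ T) (ρ : Monodromy Γ W v)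
    (H : Subgroup Γ) : Prop :=
  ∀ (k : ℕ) (f : W [⋀^Fin k]→ₗ[ℚ] ℚ), (∀ b, f ∈ divisorSpan (per b) k) →
    ∀ γ ∈ H, ∀ w : Fin k → W, f (ρ.moveA γ w) = f w

end cat

/-- Through each point `b` of `B` there is a connected complex manifold (an open set `U` of a space
`ℂ ^ d`, mapped to `B`) along which the Hodge structure of `K^top(𝒟)` is constant and all the
families `Z i` of abelian varieties are moving. -/
def MovesRelativeTo {B : Type} {n : ℕ} {g : Fin n → ℕ} {v : ℕ}
    (Z : ∀ i, B → Matrix (Fin (g i)) (Fin (g i)) ℂ) (Y : B → Coh v)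
    (P : Matrix (Fin v) (Fin v) ℚ) : Prop :=
  ∀ b, ∃ (d : ℕ) (U : Set (Fin d → ℂ)) (φ : (Fin d → ℂ) → B), IsOpen U ∧ IsPreconnected U ∧
    b ∈ φ '' U ∧
    (∀ t ∈ U, (Y (φ t)).z * P.map (algebraMap ℚ ℂ) = (Y b).z * P.map (algebraMap ℚ ℂ)) ∧
    ∀ i, IsMovingFamily U (fun t => Z i (φ t))

end

end Pool.Agent.K3h96.MV
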