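import Mathlib
import Pool.Agent.K3h96.MV.Defs
import Pool.Agent.TH504.VY.Main

set_option autoImplicit false
set_option linter.unusedSectionVars false

/-!
# Reduction to the cohomology of the linear category (helper96)
-/

namespace Pool.Agent.K3h96.MV

open Matrix Equiv Module Pool.Agent.H204R3.SP Pool.Agent.H204R3.CM Pool.Agent.H194R3.CM
  Pool.Agent.W437.HC Pool.Agent.W437.HD Pool.Agent.W437.HP Pool.Agent.W437.HR
  Pool.Agent.W548.Odd Pool.Agent.TH125.Small Pool.Agent.TH131.GHC Pool.Agent.TH504.VL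
  Pool.Agent.W546.GHC Pool.Agent.TH504.VY

noncomputable section

/-- An idempotent matrix splits. -/
theorem exists_split {v : ℕ} {P : Matrix (Fin v) (Fin v) ℚ} (hP : P * P = P) :
    ∃ (w : ℕ) (I : Matrix (Fin v) (Fin w) ℚ) (J : Matrix (Fin w) (Fin v) ℚ),
      J * I = 1 ∧ I * J = P := by
  classical
  let f : (Fin v → ℚ) →ₗ[ℚ] (Fin v → ℚ) := P.mulVecLin
  have hf : ∀ x, f (f x) = f x := by
    intro x
    change P *ᵥ (P *ᵥ x) = P *ᵥ x
    rw [mulVec_mulVec, hP]
  let R := LinearMap.range f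
  let bs := finBasis ℚ R
  let i : (Fin (finrank ℚ R) → ℚ) →ₗ[ℚ] (Fin v → ℚ) := R.subtype ∘ₗ bs.equivFun.symm.toLinearMap
  let j : (Fin v → ℚ) →ₗ[ℚ] (Fin (finrank ℚ R) → ℚ) := bs.equivFun.toLinearMap ∘ₗ f.rangeRestrict
  refine ⟨finrank ℚ R, LinearMap.toMatrix' i, LinearMap.toMatrix' j, ?_, ?_⟩
  · rw [← LinearMap.toMatrix'_comp, ← LinearMap.toMatrix'_id]
    congr 1
    refine LinearMap.ext fun x => ?_
    change bs.equivFun (f.rangeRestrict (R.subtype (bs.equivFun.symm x))) = x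
    have h1 : f.rangeRestrict (R.subtype (bs.equivFun.symm x)) = bs.equivFun.symm x := by
      apply Subtype.ext
      obtain ⟨y, hy⟩ := (bs.equivFun.symm x).2
      change f (bs.equivFun.symm x : Fin v → ℚ) = (bs.equivFun.symm x : Fin v → ℚ)
      rw [← hy, hf]
    rw [h1, LinearEquiv.apply_symm_apply]
  · rw [← LinearMap.toMatrix'_comp]
    have h1 : i ∘ₗ j = f := by
      refine LinearMap.ext fun x => ?_
      change R.subtype (bs.equivFun.symm (bs.equivFun (f.rangeRestrict x))) = f x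
      rw [LinearEquiv.symm_apply_apply]
      rfl
    rw [h1]
    exact LinearMap.toMatrix'_toLin' P

/-- rational matrices over the complex numbers -/
abbrev cm {m n : ℕ} (M : Matrix (Fin m) (Fin n) ℚ) : Matrix (Fin m) (Fin n) ℂ :=
  M.map (algebraMap ℚ ℂ)

theorem cv_mulVec {m n : ℕ} (M : Matrix (Fin m) (Fin n) ℚ) (x : Fin n → ℚ) :
    cv (M *ᵥ x) = cm M *ᵥ cv x := by
  funext i
  simp [Pool.Agent.TH131.GHC.cv, mulVec, dotProduct]

theorem cm_mul {l m n : ℕ} (M : Matrix (Fin l) (Fin m) ℚ) (N : Matrix (Fin m) (Fin n) ℚ) :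
    cm (M * N) = cm M * cm N := Matrix.map_mul

theorem cm_one {m : ℕ} : cm (1 : Matrix (Fin m) (Fin m) ℚ) = 1 := by
  ext i j
  simp [Matrix.one_apply, apply_ite]

theorem cm_star {m n : ℕ} (M : Matrix (Fin m) (Fin n) ℚ) :
    (cm M).map (starRingEnd ℂ) = cm M := by
  ext i j
  simp

/-- The Hodge structure on the image of the projector. -/
def red {v w : ℕ} {P : Matrix (Fin v) (Fin v) ℚ} (V : Coh v)
    (hz : V.z * cm P = cm P * V.z) (I : Matrix (Fin v) (Fin w) ℚ) (J : Matrix (Fin w) (Fin v) ℚ)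
    (h1 : J * I = 1) (h2 : I * J = P) : Coh w where
  dg := fun _ => 0
  z := cm J * V.z * cm I
  graded := fun b b' h => absurd rfl h
  real := by
    rw [Matrix.map_mul, Matrix.map_mul, cm_star, cm_star, V.real]
    simp
  decomp := by
    intro x
    have hJP : cm J * cm P = cm J := by
      rw [← cm_mul, ← h2, ← Matrix.mul_assoc, h1, Matrix.one_mul]
    have h3 := V.decomp (cm I *ᵥ x)
    have h4 : x = cm J *ᵥ (cm I *ᵥ x) := by
      rw [mulVec_mulVec, ← cm_mul, h1, cm_one, one_mulVec]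
    rw [h4]
    have h5 : cm J *ᵥ (cm I *ᵥ x) ∈ Submodule.map (Matrix.mulVecLin (cm J))
        (Submodule.span ℂ {y | ∃ k : ℤ, V.z *ᵥ y = (k : ℂ) • y}) :=
      Submodule.mem_map_of_mem h3
    rw [Submodule.map_span] at h5
    refine Submodule.span_mono ?_ h5
    rintro _ ⟨y, ⟨k, hk⟩, rfl⟩
    refine ⟨k, ?_⟩
    change (cm J * V.z * cm I) *ᵥ (cm J *ᵥ y) = (k : ℂ) • (cm J *ᵥ y)
    rw [mulVec_mulVec, Matrix.mul_assoc (cm J * V.z), ← cm_mul I J, h2, Matrix.mul_assoc, hz,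
      ← Matrix.mul_assoc, hJP, ← mulVec_mulVec, hk, mulVec_smul]

end

end Pool.Agent.K3h96.MV
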