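import Mathlib
import Pool.Agent.K3h96.MV.Red

set_option autoImplicit false
set_option linter.unusedSectionVars false

/-!
# Linear categories times moving abelian schemes (helper96)
-/

namespace Pool.Agent.K3h96.MV

open Matrix Equiv Module Pool.Agent.H204R3.SP Pool.Agent.H204R3.CM Pool.Agent.H194R3.CM
  Pool.Agent.W437.HC Pool.Agent.W437.HD Pool.Agent.W437.HP Pool.Agent.W437.HR
  Pool.Agent.W548.Odd Pool.Agent.TH125.Small Pool.Agent.TH131.GHC Pool.Agent.TH504.VL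
  Pool.Agent.W546.GHC Pool.Agent.TH504.VY

noncomputable section

section push

variable {W : Type} [AddCommGroup W] [Module ℚ W]

/-- The operator `1 ⊗ M`. -/
def push {m v : ℕ} (M : Matrix (Fin m) (Fin v) ℚ) : HAZ W v →ₗ[ℚ] HAZ W m where
  toFun F := fun k => (Matrix.mulVecLin M).compAlternatingMap (F k)
  map_add' F G := by
    funext k
    refine AlternatingMap.ext fun w => ?_
    exact mulVec_add M (F k w) (G k w)
  map_smul' r F := by
    funext k
    refine AlternatingMap.ext fun w => ?_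
    exact mulVec_smul M r (F k w)

theorem push_apply {m v : ℕ} (M : Matrix (Fin m) (Fin v) ℚ) (F : HAZ W v) (k : ℕ)
    (w : Fin k → W) : push M F k w = M *ᵥ F k w := rfl

theorem box_eq {v : ℕ} (P : Matrix (Fin v) (Fin v) ℚ) (F : HAZ W v) : box P F = push P F := rfl

theorem push_push {l m v : ℕ} (M : Matrix (Fin l) (Fin m) ℚ) (N : Matrix (Fin m) (Fin v) ℚ)
    (F : HAZ W v) : push M (push N F) = push (M * N) F := by
  funext k
  refine AlternatingMap.ext fun w => ?_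
  exact mulVec_mulVec (F k w) M N

theorem push_cross {m v k : ℕ} (M : Matrix (Fin m) (Fin v) ℚ) (f : W [⋀^Fin k]→ₗ[ℚ] ℚ)
    (x : Fin v → ℚ) : push M (cross f x) = cross f (M *ᵥ x) := by
  funext l
  refine AlternatingMap.ext fun w => ?_
  rw [push_apply]
  by_cases h : l = k
  · subst h
    unfold cross
    rw [Pi.single_eq_same, Pi.single_eq_same]
    exact mulVec_smul M (f w) x
  · unfold cross
    rw [Pi.single_eq_of_ne h, Pi.single_eq_of_ne h]
    exact mulVec_zero M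

theorem fibreIntegral_push {m v k j : ℕ} (M : Matrix (Fin m) (Fin v) ℚ)
    (e : Basis (Fin k ⊕ Fin j) ℚ W) (F : HAZ W v) (β : W [⋀^Fin j]→ₗ[ℚ] ℚ) :
    fibreIntegral e (push M F) β = M *ᵥ fibreIntegral e F β := by
  unfold fibreIntegral
  change _ = (Matrix.mulVecLin M) _
  rw [map_sum]
  refine Finset.sum_congr rfl fun σ _ => ?_
  rw [map_zsmul, map_smul]
  rfl

/-- An alternating form of top degree is multiplied by the determinant. -/
theorem alt_det {ι : Type} [Fintype ι] [DecidableEq ι] (e : Basis ι ℚ W)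
    (f : W [⋀^ι]→ₗ[ℚ] ℚ) (ρ : W →ₗ[ℚ] W) : f (fun i => ρ (e i)) = LinearMap.det ρ * f e := by
  have h1 := AlternatingMap.eq_smul_basis_det e f
  have h2 : f (fun i => ρ (e i)) = f e * e.det (ρ ∘ e) := by
    conv_lhs => rw [h1]
    rfl
  rw [h2, Basis.det_comp, Basis.det_self]
  ring

/-- The integrals of invariant classes are invariant. -/
theorem fibreIntegral_invariant {v k j : ℕ} (e : Basis (Fin k ⊕ Fin j) ℚ W) (F : HAZ W v)
    (β : W [⋀^Fin j]→ₗ[ℚ] ℚ) (ρ : W →ₗ[ℚ] W) (τ : (Fin v → ℚ) →ₗ[ℚ] (Fin v → ℚ))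
    (hdet : LinearMap.det ρ = 1) (hF : ∀ w : Fin k → W, F k (fun l => ρ (w l)) = τ (F k w))
    (hβ : ∀ w : Fin j → W, β (fun l => ρ (w l)) = β w) :
    τ (fibreIntegral e F β) = fibreIntegral e F β := by
  have h1 : τ (fibreIntegral e F β) = ∑ σ : Equiv.Perm (Fin k ⊕ Fin j),
      (Equiv.Perm.sign σ : ℤ) • (β (fun l => ρ (e (σ (Sum.inr l)))) •
        F k (fun l => ρ (e (σ (Sum.inl l))))) := by
    unfold fibreIntegral
    rw [map_sum]
    refine Finset.sum_congr rfl fun σ _ => ?_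
    rw [map_zsmul, map_smul, ← hF, hβ]
  rw [h1]
  funext b
  rw [fibreIntegral_apply, Finset.sum_apply]
  have h2 := alt_det e (wedgeW (cmp b (F k)) β) ρ
  rw [hdet, one_mul] at h2
  rw [← h2, wedgeW_apply]
  refine Finset.sum_congr rfl fun σ _ => ?_
  rw [Pi.smul_apply, Pi.smul_apply, smul_eq_mul, cmp_apply, mul_comm (β _)]

end push

section red

variable {W T : Type} [AddCommGroup W] [Module ℚ W] [AddCommGroup T] [Module ℂ T]
  {v w : ℕ} {P : Matrix (Fin v) (Fin v) ℚ} {I : Matrix (Fin v) (Fin w) ℚ}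
  {J : Matrix (Fin w) (Fin v) ℚ}

theorem hodge_up {V : Coh v} (hz : V.z * cm P = cm P * V.z) (h1 : J * I = 1) (h2 : I * J = P)
    {x : Fin w → ℚ} (hx : IsHodgeOn (red V hz I J h1 h2) x) : IsHodgeOn V (I *ᵥ x) := by
  unfold IsHodgeOn at hx ⊢
  change (cm J * V.z * cm I) *ᵥ _ = 0 at hx
  have hPI : cm P * cm I = cm I := by
    rw [← cm_mul, ← h2, Matrix.mul_assoc, h1, Matrix.mul_one]
  have h3 : V.z * cm I = cm I * (cm J * V.z * cm I) := by
    calc V.z * cm I = V.z * cm P * cm I := by rw [Matrix.mul_assoc, hPI]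
      _ = cm P * V.z * cm I := by rw [hz]
      _ = cm I * cm J * V.z * cm I := by rw [← cm_mul, h2]
      _ = cm I * (cm J * V.z * cm I) := by simp only [Matrix.mul_assoc]
  rw [cv_mulVec, mulVec_mulVec, h3, ← mulVec_mulVec, hx, mulVec_zero]

theorem hodge_down {V : Coh v} (hz : V.z * cm P = cm P * V.z) (h1 : J * I = 1) (h2 : I * J = P)
    {per : W →+ T} {F : HAZ W v} (hF : IsHodgeOnProduct per V F) :
    IsHodgeOnProduct per (red V hz I J h1 h2) (push J F) := by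
  obtain ⟨Φ, hE, hT⟩ := hF
  let L : (Fin v → ℂ) →ₗ[ℝ] (Fin w → ℂ) := (Matrix.mulVecLin (cm J)).restrictScalars ℝ
  refine ⟨fun k => L.compAlternatingMap (Φ k), fun k u => ?_, fun k u => ?_⟩
  · change cm J *ᵥ (Φ k _) = _
    rw [hE k u, push_apply, cv_mulVec]
  · have hJP : cm J * cm P = cm J := by
      rw [← cm_mul, ← h2, ← Matrix.mul_assoc, h1, Matrix.one_mul]
    have h3 : (cm J * V.z * cm I) * cm J = cm J * V.z := by
      rw [Matrix.mul_assoc (cm J * V.z), ← cm_mul I J, h2, Matrix.mul_assoc, hz,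
        ← Matrix.mul_assoc, hJP]
    have h4 := congrArg (fun y => cm J *ᵥ y) (hT k u)
    change (-Complex.I) • ∑ l, (cm J *ᵥ Φ k (Function.update u l (Complex.I • u l))) +
      (cm J * V.z * cm I) *ᵥ (cm J *ᵥ Φ k u) = (((0 : ℤ)) : ℂ) • (cm J *ᵥ Φ k u)
    rw [mulVec_mulVec, h3, ← mulVec_smul, ← h4]
    rw [mulVec_add, mulVec_smul, mulVec_mulVec]
    congr 2
    exact (map_sum (Matrix.mulVecLin (cm J)) _ _).symm

end red

section base

variable {n : ℕ} {g : Fin n → ℕ} {v w : ℕ} {B : Type}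
  {Z : ∀ i, B → Matrix (Fin (g i)) (Fin (g i)) ℂ} {Y : B → Coh v}
  {P : Matrix (Fin v) (Fin v) ℚ} {I : Matrix (Fin v) (Fin w) ℚ} {J : Matrix (Fin w) (Fin v) ℚ}

theorem moves_red (hmov : MovesRelativeTo Z Y P) (hz : ∀ b, (Y b).z * cm P = cm P * (Y b).z)
    (h1 : J * I = 1) (h2 : I * J = P) :
    MovesRelative Z (fun b => red (Y b) (hz b) I J h1 h2) := by
  intro b
  obtain ⟨d, U, φ, hU, hc, hb, hY, hm⟩ := hmov b
  refine ⟨d, U, φ, hU, hc, hb, fun t ht => ?_, hm⟩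
  have hPI : cm P * cm I = cm I := by
    rw [← cm_mul, ← h2, Matrix.mul_assoc, h1, Matrix.mul_one]
  change cm J * (Y (φ t)).z * cm I = cm J * (Y b).z * cm I
  have h3 : (Y (φ t)).z * cm I = (Y b).z * cm I := by
    rw [← hPI, ← Matrix.mul_assoc, ← Matrix.mul_assoc]
    exact congrArg (fun M => M * cm I) (hY t ht)
  rw [Matrix.mul_assoc, Matrix.mul_assoc, h3]

/-- A top form: a product of divisor classes on all fibres with integral one. -/
theorem exists_top [Nonempty B] {Y' : B → Coh w} (hmov : MovesRelative Z Y') :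
    ∃ (N : ℕ) (e : Basis (Fin 0 ⊕ Fin N) ℚ (∀ i, Fin (g i) ⊕ Fin (g i) → ℚ))
      (β : (∀ i, Fin (g i) ⊕ Fin (g i) → ℚ) [⋀^Fin N]→ₗ[ℚ] ℚ),
      (∀ b, β ∈ divisorSpan (perProd (fun i => Z i b)) N) ∧
      wedgeW (AlternatingMap.constOfIsEmpty ℚ (∀ i, Fin (g i) ⊕ Fin (g i) → ℚ) (Fin 0)
        (1 : ℚ)) β e ≠ 0 := by
  classical
  have hper : ∀ b, (∀ i, (Z i b)ᵀ = Z i b) ∧ ∀ i, (imM (Z i b)).PosDef := by
    intro b
    obtain ⟨d, U, φ, t₀, t, h, ht, rfl, hY⟩ := exists_leaf hmov b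
    exact ⟨h.symm t ht, h.pos t ht⟩
  have hspan : ∀ {k : ℕ} (f : (∀ i, Fin (g i) ⊕ Fin (g i) → ℚ) [⋀^Fin k]→ₗ[ℚ] ℚ),
      f ∈ HH (EE g) (fun b => DZ (bigD ℂ (fun i => Z i b))) k →
      ∀ b, f ∈ divisorSpan (perProd (fun i => Z i b)) k := by
    intro k f hf b
    obtain ⟨d, U, φ, t₀, t, h, ht, rfl, hY⟩ := exists_leaf hmov b
    exact h.mem_span (hf (φ t₀)) ht
  obtain ⟨N, hN⟩ : ∃ N, N = Fintype.card (Fin (NB g) ⊕ Fin (NB g)) := ⟨_, rfl⟩
  have hkN : 0 + N = Fintype.card (Fin (NB g) ⊕ Fin (NB g)) := by omega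
  have hq : Fintype.card (Fin (NB g) ⊕ Fin (NB g)) = Fintype.card (Fin 0 ⊕ Fin N) := by
    rw [Fintype.card_sum (α := Fin 0), Fintype.card_fin, Fintype.card_fin, hkN]
  let e : Basis (Fin 0 ⊕ Fin N) ℚ (∀ i, Fin (g i) ⊕ Fin (g i) → ℚ) :=
    (basisP g).reindex (Fintype.equivOfCardEq hq)
  have h0 : AlternatingMap.constOfIsEmpty ℚ (∀ i, Fin (g i) ⊕ Fin (g i) → ℚ) (Fin 0)
      (1 : ℚ) ≠ 0 := by
    intro h0
    have h1 := congrArg (fun f => f (fun l => Fin.elim0 l)) h0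
    simp at h1
  have hH : ∀ b, IsH (DZ (bigD ℂ (fun i => Z i b)))
      (cfE (EE g) (AlternatingMap.constOfIsEmpty ℚ (∀ i, Fin (g i) ⊕ Fin (g i) → ℚ) (Fin 0)
        (1 : ℚ))) := by
    intro b
    unfold IsH
    funext I
    simp [act]
  obtain ⟨β, hβ, hne⟩ := exists_dual (X := B) (EE g)
    (fun b => polOf (bigD_symm (hper b).1) (imM_bigD_posDef _ (hper b).2))
    (fun x y => (polOf_Om _ _).trans (polOf_Om _ _).symm) (fun {κ} _ _ f hf => cfE_inj f hf)
    hkN e hH h0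
  exact ⟨N, e, β, hspan β hβ, hne⟩

end base

section final

variable {n : ℕ} {g : Fin n → ℕ} {v : ℕ} {B : Type}
  {Z : ∀ i, B → Matrix (Fin (g i)) (Fin (g i)) ℂ} {Y : B → Coh v}
  {C : CycleSystem (fun b => perProd (fun i => Z i b)) v} {D : LinearCat C Y}
  {Γ : Type} [Group Γ] {ρ : Monodromy Γ (∀ i, Fin (g i) ⊕ Fin (g i) → ℚ) v} {H : Subgroup Γ}

theorem LinearCat.mem_of_alg {b : B} {x : Fin v → ℚ} (h : D.Alg b x) : x ∈ C.algY b := by
  obtain ⟨y, hy, rfl⟩ := h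
  exact D.cycles b y hy

theorem LinearCat.alg_of_mem {b : B} {x : Fin v → ℚ} (hx : D.KTop x) (h : x ∈ C.algY b) :
    D.Alg b x := ⟨x, h, hx.symm⟩

theorem LinearCat.memA_of_alg {b : B} {F : HAZ (∀ i, Fin (g i) ⊕ Fin (g i) → ℚ) v}
    (h : D.AlgA b F) : F ∈ C.alg b := by
  obtain ⟨G, hG, rfl⟩ := h
  exact D.cyclesA b G hG

theorem LinearCat.algA_of_mem {b : B} {F : HAZ (∀ i, Fin (g i) ⊕ Fin (g i) → ℚ) v}
    (hF : D.KTopA F) (h : F ∈ C.alg b) : D.AlgA b F := ⟨F, h, hF.symm⟩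

theorem qOneA_of_qOne [Nonempty B] (hmov : MovesRelativeTo Z Y D.P)
    (hH : DefinedOver (fun b => perProd (fun i => Z i b)) ρ H) (h : D.QOne ρ H) :
    D.QOneA ρ H := by
  intro F hF hs hh b₀ hb₀ b
  obtain ⟨w, I, J, h1, h2⟩ := exists_split D.idem
  have hmov' := moves_red hmov D.hodge h1 h2
  have hFD : ∀ b, IsHodgeOnProduct (perProd (fun i => Z i b)) (red (Y b) (D.hodge b) I J h1 h2)
      (push J F) := fun b => hodge_down (D.hodge b) h1 h2 (hh b)
  have hF0 : F ∈ C.alg b₀ := LinearCat.memA_of_alg hb₀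
  have hFe : push I (push J F) = F := by
    rw [push_push, h2]
    exact hF
  refine LinearCat.algA_of_mem hF ?_
  have key : push J F ∈ (C.alg b).comap (push I) := by
    refine mem_of_integrals hmov' hFD fun k j e f β hf hβ => ?_
    have hK : D.KTop (fibreIntegral e F β) := by
      change D.P *ᵥ _ = _
      rw [← fibreIntegral_push]
      exact congrArg (fun G => fibreIntegral e G β) hF
    change push I (cross f (fibreIntegral e (push J F) β)) ∈ C.alg b
    rw [push_cross, ← fibreIntegral_push, hFe]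
    refine C.cross_mem b k f (hf b) _ ?_
    refine LinearCat.mem_of_alg (h _ hK ?_ ?_ b₀ ?_ b)
    · intro γ hγ
      exact fibreIntegral_invariant e F β (ρ.onA γ) (ρ.onY γ)
        (ρ.det_one γ) (fun w => hs γ hγ k w) (fun w => hH j β hβ γ hγ w)
    · intro b'
      have h3 := hodge_up (D.hodge b') h1 h2 (integral_mem hmov' hFD e β b')
      rwa [← fibreIntegral_push, hFe] at h3
    · exact LinearCat.alg_of_mem hK (C.integral_mem b₀ F hF0 k j e β (hβ b₀))
  rw [← hFe]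
  exact key

theorem cross_one_apply {W : Type} [AddCommGroup W] [Module ℚ W] (x : Fin v → ℚ)
    (w : Fin 0 → W) :
    cross (AlternatingMap.constOfIsEmpty ℚ W (Fin 0) (1 : ℚ)) x 0 w = x := by
  unfold cross
  rw [Pi.single_eq_same]
  change (1 : ℚ) • x = x
  rw [one_smul]

theorem cross_one_ne {W : Type} [AddCommGroup W] [Module ℚ W] (x : Fin v → ℚ) {k : ℕ}
    (hk : k ≠ 0) :
    cross (AlternatingMap.constOfIsEmpty ℚ W (Fin 0) (1 : ℚ)) x k = 0 := by
  unfold cross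
  exact Pi.single_eq_of_ne hk _

theorem one_mem {W T : Type} [AddCommGroup W] [Module ℚ W] [AddCommGroup T] [Module ℂ T]
    (per : W →+ T) :
    AlternatingMap.constOfIsEmpty ℚ W (Fin 0) (1 : ℚ) ∈ divisorSpan per 0 := by
  refine Submodule.subset_span ⟨0, Equiv.equivOfIsEmpty _ _, fun l => l.elim0,
    fun l => l.elim0, fun w => ?_⟩
  simp

theorem hodge_one {W T : Type} [AddCommGroup W] [Module ℚ W] [AddCommGroup T] [Module ℂ T]
    (per : W →+ T) {V : Coh v} {x : Fin v → ℚ} (hx : IsHodgeOn V x) :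
    IsHodgeOnProduct per V (cross (AlternatingMap.constOfIsEmpty ℚ W (Fin 0) (1 : ℚ)) x) := by
  classical
  refine ⟨Pi.single 0 (AlternatingMap.constOfIsEmpty ℝ T (Fin 0)
    (Pool.Agent.TH131.GHC.cv x)), fun k w => ?_, fun k u => ?_⟩
  · by_cases hk : k = 0
    · subst hk
      rw [Pi.single_eq_same, cross_one_apply]
      rfl
    · rw [Pi.single_eq_of_ne hk, cross_one_ne x hk]
      funext b
      simp [Pool.Agent.TH131.GHC.cv]
  · by_cases hk : k = 0
    · subst hk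
      rw [Pi.single_eq_same]
      simp only [Finset.univ_eq_empty, Finset.sum_empty, smul_zero, zero_add, Int.cast_zero,
        zero_smul]
      exact hx
    · rw [Pi.single_eq_of_ne hk]
      simp

theorem fibreIntegral_one {W : Type} [AddCommGroup W] [Module ℚ W] {N : ℕ}
    (e : Basis (Fin 0 ⊕ Fin N) ℚ W) (β : W [⋀^Fin N]→ₗ[ℚ] ℚ) (x : Fin v → ℚ) :
    fibreIntegral e (cross (AlternatingMap.constOfIsEmpty ℚ W (Fin 0) (1 : ℚ)) x) β =
      wedgeW (AlternatingMap.constOfIsEmpty ℚ W (Fin 0) (1 : ℚ)) β e • x := by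
  funext b
  rw [fibreIntegral_apply, Pi.smul_apply, smul_eq_mul]
  have h1 : cmp b (cross (AlternatingMap.constOfIsEmpty ℚ W (Fin 0) (1 : ℚ)) x 0) =
      x b • AlternatingMap.constOfIsEmpty ℚ W (Fin 0) (1 : ℚ) := by
    refine AlternatingMap.ext fun w => ?_
    rw [cmp_apply, cross_one_apply]
    change x b = x b * 1
    rw [mul_one]
  rw [h1, wedgeW_smul_left, mul_comm]

theorem qOne_of_qOneA [Nonempty B] (hmov : MovesRelativeTo Z Y D.P) (h : D.QOneA ρ H) :
    D.QOne ρ H := by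
  intro x hx hs hh b₀ hb₀ b
  obtain ⟨w, I, J, h1, h2⟩ := exists_split D.idem
  have hmov' := moves_red hmov D.hodge h1 h2
  obtain ⟨N, e, β, hβ, hne⟩ := exists_top hmov'
  have hF : D.KTopA (cross (AlternatingMap.constOfIsEmpty ℚ
      (∀ i, Fin (g i) ⊕ Fin (g i) → ℚ) (Fin 0) (1 : ℚ)) x) := by
    change push D.P _ = _
    rw [push_cross]
    exact congrArg _ hx
  have hsF : ρ.Section H (cross (AlternatingMap.constOfIsEmpty ℚ
      (∀ i, Fin (g i) ⊕ Fin (g i) → ℚ) (Fin 0) (1 : ℚ)) x) := by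
    intro γ hγ k w
    by_cases hk : k = 0
    · subst hk
      rw [cross_one_apply, cross_one_apply, hs γ hγ]
    · rw [cross_one_ne x hk]
      exact (map_zero (ρ.onY γ)).symm
  have h3 := LinearCat.memA_of_alg (h _ hF hsF (fun b => hodge_one _ (hh b)) b₀
    (LinearCat.algA_of_mem hF (C.cross_mem b₀ 0 _ (one_mem _) x (LinearCat.mem_of_alg hb₀))) b)
  have h4 := C.integral_mem b _ h3 0 N e β (hβ b)
  rw [fibreIntegral_one] at h4
  refine LinearCat.alg_of_mem hx ?_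
  have h5 := Submodule.smul_mem _
    (wedgeW (AlternatingMap.constOfIsEmpty ℚ (∀ i, Fin (g i) ⊕ Fin (g i) → ℚ) (Fin 0)
      (1 : ℚ)) β e)⁻¹ h4
  rwa [smul_smul, inv_mul_cancel₀ hne, one_smul] at h5

theorem sub_qOne (h : D.QOneA ρ H) (E : D.Sub) : E.QOne ρ H := by
  intro F hF hs hh b₀ hb₀ b
  have hK : D.KTopA F := hF ▸ E.le F
  have h0 : F ∈ C.alg b₀ := by
    obtain ⟨G, hG, rfl⟩ := hb₀
    exact E.cycles b₀ G hG
  exact ⟨F, LinearCat.memA_of_alg (h F hK hs hh b₀ (LinearCat.algA_of_mem hK h0) b), hF.symm⟩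

theorem qOne_mono {H' : Subgroup Γ} (hle : H' ≤ H) (h : D.QOne ρ H') : D.QOne ρ H :=
  fun x hx hs => h x hx fun γ hγ => hs γ (hle hγ)

theorem qOneA_mono {H' : Subgroup Γ} (hle : H' ≤ H) (h : D.QOneA ρ H') : D.QOneA ρ H :=
  fun x hx hs => h x hx fun γ hγ => hs γ (hle hγ)

theorem qOne_of_const (hc : ∀ b b', C.algY b = C.algY b') : D.QOne ρ H := by
  intro x hx hs hh b₀ hb₀ b
  refine LinearCat.alg_of_mem hx ?_
  rw [hc b b₀]
  exact LinearCat.mem_of_alg hb₀

theorem definedOver_mono {W T : Type} [AddCommGroup W] [Module ℚ W] [AddCommGroup T] [Module ℂ T]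
    {per : B → W →+ T} {ρ : Monodromy Γ W v} {H' : Subgroup Γ} (hle : H' ≤ H)
    (h : DefinedOver per ρ H) : DefinedOver per ρ H' :=
  fun k f hf γ hγ => h k f hf γ (hle hγ)

/-- **The main theorem.** -/
theorem main [Nonempty B] (hmov : MovesRelativeTo Z Y D.P)
    (ρ : Monodromy Γ (∀ i, Fin (g i) ⊕ Fin (g i) → ℚ) v) :
    (∀ H : Subgroup Γ, DefinedOver (fun b => perProd (fun i => Z i b)) ρ H →
      (D.QOneA ρ H ↔ D.QOne ρ H)) ∧
    ((∃ H₀ : Subgroup Γ, H₀.FiniteIndex ∧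
        DefinedOver (fun b => perProd (fun i => Z i b)) ρ H₀) →
      (D.QOneACoverings ρ ↔ D.QOneCoverings ρ) ∧
      ((D.QOneCoverings ρ ∨ ∀ b b', C.algY b = C.algY b') →
        ∀ E : D.Sub, E.QOneCoverings ρ)) := by
  have h1 : ∀ H : Subgroup Γ, DefinedOver (fun b => perProd (fun i => Z i b)) ρ H →
      (D.QOneA ρ H ↔ D.QOne ρ H) := fun H hH =>
    ⟨fun h => qOne_of_qOneA hmov h, fun h => qOneA_of_qOne hmov hH h⟩
  refine ⟨h1, ?_⟩
  rintro ⟨H₀, hfin, hdef⟩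
  have h2 : D.QOneCoverings ρ → D.QOneACoverings ρ := by
    intro h H hH
    have := hfin
    have := hH
    exact qOneA_mono inf_le_left (qOneA_of_qOne hmov (definedOver_mono inf_le_right hdef)
      (h (H ⊓ H₀) inferInstance))
  refine ⟨⟨fun h H hH => qOne_of_qOneA hmov (h H hH), h2⟩, ?_⟩
  intro h E H hH
  refine sub_qOne (h2 ?_ H hH) E
  rcases h with h | h
  · exact h
  · exact fun H' _ => qOne_of_const h

end final

end

end Pool.Agent.K3h96.MV
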