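import Mathlib
import Pool.Agent.K3h96.MV.Main

set_option autoImplicit false

/-!
# Linear categories times moving abelian schemes: the final form (helper96)
-/

namespace Pool.Agent.K3h96.MV

open Pool.Agent.W437.HP Pool.Agent.TH131.GHC Pool.Agent.TH504.VY

noncomputable section

/-- A product `A_1 × ... × A_n` of principally polarized abelian schemes over `S`, with the universal
covering `B` of `S`: the fibre of `A_i` over `b` is `ℂ ^ g / (ℤ ^ g + Z(b) ℤ ^ g)`, `g = g i`,
`Z(b) = Z i b`. -/
structure AbelianSchemes (B : Type) where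
  /-- the number of the factors -/
  n : ℕ
  /-- the dimensions -/
  g : Fin n → ℕ
  /-- the period matrices -/
  Z : ∀ i, B → Matrix (Fin (g i)) (Fin (g i)) ℂ

variable {B : Type}

/-- The rational homology of the fibres, `⊕ (ℚ ^ g ⊕ ℚ ^ g)`. -/
def AbelianSchemes.Hom (A : AbelianSchemes B) : Type := ∀ i, Fin (A.g i) ⊕ Fin (A.g i) → ℚ

/-- The tangent space of the fibres, `⊕ ℂ ^ g`. -/
def AbelianSchemes.Tan (A : AbelianSchemes B) : Type := ∀ i, Fin (A.g i) → ℂ

instance (A : AbelianSchemes B) : AddCommGroup A.Hom :=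
  inferInstanceAs (AddCommGroup (∀ i, Fin (A.g i) ⊕ Fin (A.g i) → ℚ))

instance (A : AbelianSchemes B) : Module ℚ A.Hom :=
  inferInstanceAs (Module ℚ (∀ i, Fin (A.g i) ⊕ Fin (A.g i) → ℚ))

instance (A : AbelianSchemes B) : AddCommGroup A.Tan :=
  inferInstanceAs (AddCommGroup (∀ i, Fin (A.g i) → ℂ))

instance (A : AbelianSchemes B) : Module ℂ A.Tan :=
  inferInstanceAs (Module ℂ (∀ i, Fin (A.g i) → ℂ))

/-- The inclusion of the homology in the tangent space: `(a, a') ↦ a + Z(b) a'` in each factor. -/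
def AbelianSchemes.per (A : AbelianSchemes B) (b : B) : A.Hom →+ A.Tan :=
  perProd (fun i => A.Z i b)

/-- The product `A` of abelian schemes moves relative to the linear category `𝒟`: through each point
`b` of `B` there is a connected complex manifold (an open set `U` of a space `ℂ ^ d`, mapped to `B`)
along which the Hodge structure of `K^top(𝒟)` is constant and all the `A_i` are moving. -/
def AbelianSchemes.MovesRelativeTo (A : AbelianSchemes B) {v : ℕ} {Y : B → Coh v}
    {C : CycleSystem A.per v} (D : LinearCat C Y) : Prop :=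
  K3h96.MV.MovesRelativeTo A.Z Y D.P

/-- **The main theorem.** -/
theorem main' {Γ : Type} [Group Γ] [Nonempty B] (A : AbelianSchemes B) {v : ℕ} {Y : B → Coh v}
    {C : CycleSystem A.per v} (D : LinearCat C Y) (hmov : A.MovesRelativeTo D)
    (ρ : Monodromy Γ A.Hom v) :
    (∀ H : Subgroup Γ, DefinedOver A.per ρ H → (D.QOneA ρ H ↔ D.QOne ρ H)) ∧
    ((∃ H₀ : Subgroup Γ, H₀.FiniteIndex ∧ DefinedOver A.per ρ H₀) →
      (D.QOneACoverings ρ ↔ D.QOneCoverings ρ) ∧
      ((D.QOneCoverings ρ ∨ ∀ b b', C.algY b = C.algY b') →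
        ∀ E : D.Sub, E.QOneCoverings ρ)) :=
  main (n := A.n) (g := A.g) (Z := A.Z) (Y := Y) (C := C) (D := D) hmov ρ

end

end Pool.Agent.K3h96.MV
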